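import Pool.Agent.Helper13.TW.StA

/-!
Project TW (MP_a45945_gt), module SCL: simple closed curves.
-/

set_option autoImplicit false

namespace Pool.Agent.Helper78.TW

open Set Topology Pool.Agent.Helper13.TR Pool.Agent.Helper13.TW

variable {S : Type} [TopologicalSpace S] [T2Space S]

private theorem arc_symm (hA : StARB) {D : Set S} {p q : S} (h : IsArc D p q) : IsArc D q p :=
  (hA.1 S D p q h).1

private theorem arc_cpt (hA : StARB) {D : Set S} {p q : S} (h : IsArc D p q) : IsCompact D :=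
  (hA.1 S D p q h).2.1

private theorem arc_l (hA : StARB) {D : Set S} {p q : S} (h : IsArc D p q) : p ∈ D :=
  (hA.1 S D p q h).2.2.1

private theorem arc_r (hA : StARB) {D : Set S} {p q : S} (h : IsArc D p q) : q ∈ D :=
  (hA.1 S D p q h).2.2.2.1

private theorem arc_ne (hA : StARB) {D : Set S} {p q : S} (h : IsArc D p q) : p ≠ q :=
  (hA.1 S D p q h).2.2.2.2.1

private theorem arc_pc (hA : StARB) {D : Set S} {p q : S} (h : IsArc D p q) :
    IsPathConnected D := (hA.1 S D p q h).2.2.2.2.2.1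

private theorem arc_pcl (hA : StARB) {D : Set S} {p q : S} (h : IsArc D p q) :
    IsPathConnected (D \ {p}) := (hA.1 S D p q h).2.2.2.2.2.2.1

private theorem arc_pcr (hA : StARB) {D : Set S} {p q : S} (h : IsArc D p q) :
    IsPathConnected (D \ {q}) := (hA.1 S D p q h).2.2.2.2.2.2.2.1

private theorem arc_pcb (hA : StARB) {D : Set S} {p q : S} (h : IsArc D p q) :
    IsPathConnected (D \ {p, q}) := (hA.1 S D p q h).2.2.2.2.2.2.2.2.1

private theorem spl_symm (hA : StARB) {J : Set S} {p q : S} {D₁ D₂ : Set S}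
    (h : Spl J p q D₁ D₂) : Spl J q p D₁ D₂ :=
  ⟨arc_symm hA h.1, arc_symm hA h.2.1, by rw [h.2.2.1, pair_comm], h.2.2.2⟩

omit [T2Space S] in
private theorem spl_swap {J : Set S} {p q : S} {D₁ D₂ : Set S}
    (h : Spl J p q D₁ D₂) : Spl J p q D₂ D₁ :=
  ⟨h.2.1, h.1, by rw [inter_comm, h.2.2.1], by rw [union_comm, h.2.2.2]⟩

omit [TopologicalSpace S] [T2Space S] in
/-- An end point of a piece is not in the other piece. -/
private theorem not_mem {E₁ E₂ : Set S} {a x : S} (h : E₁ ∩ E₂ = {a}) (hx : x ∈ E₁) (hne : x ≠ a) :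
    x ∉ E₂ := by
  intro h2
  have : x ∈ E₁ ∩ E₂ := ⟨hx, h2⟩
  rw [h] at this
  exact hne this

private theorem move (hA : StARB) {J : Set S} {a b p : S} {A₁ A₂ : Set S}
    (h : Spl J a b A₁ A₂) (hp : p ∈ A₁) (hpa : p ≠ a) (hpb : p ≠ b) :
    ∃ D₁ D₂ : Set S, Spl J p b D₁ D₂ := by
  obtain ⟨h1, h2, h3, h4⟩ := h
  obtain ⟨E₁, E₂, e1, e2, e3, e4⟩ := hA.2.1 S A₁ a b p h1 hp hpa hpb
  have hbE : b ∉ E₁ := not_mem (by rw [inter_comm]; exact e4) (arc_r hA e2) hpb.symm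
  have haE : a ∉ E₂ := not_mem e4 (arc_l hA e1) hpa.symm
  have hE1A : E₁ ⊆ A₁ := by rw [← e3]; exact subset_union_left
  have hE2A : E₂ ⊆ A₁ := by rw [← e3]; exact subset_union_right
  have i1 : E₁ ∩ A₂ = {a} := by
    apply Subset.antisymm
    · rintro x ⟨hx1, hx2⟩
      have : x ∈ A₁ ∩ A₂ := ⟨hE1A hx1, hx2⟩
      rw [h3] at this
      rcases this with rfl | rfl
      · rfl
      · exact absurd hx1 hbE
    · rintro x rfl
      exact ⟨arc_l hA e1, arc_l hA h2⟩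
  refine ⟨E₂, E₁ ∪ A₂, e2, hA.2.2.1 S E₁ A₂ p b a (arc_symm hA e1) h2 i1, ?_, ?_⟩
  · apply Subset.antisymm
    · rintro x ⟨hx1, hx2 | hx2⟩
      · have : x ∈ E₁ ∩ E₂ := ⟨hx2, hx1⟩
        rw [e4] at this
        exact Or.inl this
      · have : x ∈ A₁ ∩ A₂ := ⟨hE2A hx1, hx2⟩
        rw [h3] at this
        rcases this with rfl | rfl
        · exact absurd hx1 haE
        · exact Or.inr rfl
    · rintro x (rfl | rfl)
      · exact ⟨arc_l hA e2, Or.inl (arc_r hA e1)⟩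
      · exact ⟨arc_r hA e2, Or.inr (arc_r hA h2)⟩
  · rw [← h4, ← e3, ← union_assoc, union_comm E₂ E₁]

private theorem split_one (hA : StARB) {J : Set S} (hJ : IsSCC J) {p : S} (hp : p ∈ J) :
    ∃ (c : S) (D₁ D₂ : Set S), Spl J p c D₁ D₂ := by
  obtain ⟨a, b, A₁, A₂, h⟩ := hJ
  by_cases hpa : p = a
  · subst hpa
    exact ⟨b, A₁, A₂, h⟩
  by_cases hpb : p = b
  · subst hpb
    exact ⟨a, A₁, A₂, spl_symm hA h⟩
  rw [← h.2.2.2] at hp
  rcases hp with hp | hp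
  · obtain ⟨D₁, D₂, hD⟩ := move hA h hp hpa hpb
    exact ⟨b, D₁, D₂, hD⟩
  · obtain ⟨D₁, D₂, hD⟩ := move hA (spl_swap h) hp hpa hpb
    exact ⟨b, D₁, D₂, hD⟩

private theorem split_two (hA : StARB) {J : Set S} (hJ : IsSCC J) {p q : S} (hp : p ∈ J)
    (hq : q ∈ J) (hpq : p ≠ q) : ∃ D₁ D₂ : Set S, Spl J p q D₁ D₂ := by
  obtain ⟨c, D₁, D₂, h⟩ := split_one hA hJ hp
  by_cases hqc : q = c
  · subst hqc
    exact ⟨D₁, D₂, h⟩
  rw [← h.2.2.2] at hq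
  rcases hq with hq | hq
  · obtain ⟨G₁, G₂, hG⟩ := move hA (spl_symm hA h) hq hqc hpq.symm
    exact ⟨G₁, G₂, spl_symm hA hG⟩
  · obtain ⟨G₁, G₂, hG⟩ := move hA (spl_swap (spl_symm hA h)) hq hqc hpq.symm
    exact ⟨G₁, G₂, spl_symm hA hG⟩

omit [T2Space S] in
/-- Preconnected sets outside the intersection of two closed sets covering them. -/
private theorem sub_or {s u v : Set S} (hs : IsPathConnected s) (hu : IsClosed u)
    (hv : IsClosed v) (huv : s ⊆ u ∪ v) (hd : ∀ x ∈ s, x ∉ u ∩ v) : s ⊆ u ∨ s ⊆ v := by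
  have hpre := hs.isConnected.isPreconnected
  rw [isPreconnected_iff_subset_of_disjoint_closed] at hpre
  apply hpre u v hu hv huv
  rw [eq_empty_iff_forall_notMem]
  rintro x ⟨h1, h2⟩
  exact hd x h1 h2

omit [TopologicalSpace S] [T2Space S] in
private theorem uniq_aux {p q : S} {D₁ D₂ Y₁ Y₂ J : Set S}
    (hU : D₁ ∪ D₂ = J) (hI : D₁ ∩ D₂ = {p, q}) (hYU : Y₁ ∪ Y₂ = J) (hYI : Y₁ ∩ Y₂ = {p, q})
    (h1 : D₁ \ {p, q} ⊆ Y₁) (h2 : D₂ \ {p, q} ⊆ Y₂) : Y₁ = D₁ := by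
  apply Subset.antisymm
  · intro x hx
    have hxJ : x ∈ D₁ ∪ D₂ := by rw [hU, ← hYU]; exact Or.inl hx
    rcases hxJ with hxD | hxD
    · exact hxD
    · by_cases hxp : x ∈ ({p, q} : Set S)
      · rw [← hI] at hxp
        exact hxp.1
      · exfalso
        apply hxp
        rw [← hYI]
        exact ⟨hx, h2 ⟨hxD, hxp⟩⟩
  · intro x hx
    by_cases hxp : x ∈ ({p, q} : Set S)
    · rw [← hYI] at hxp
      exact hxp.1
    · exact h1 ⟨hx, hxp⟩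

private theorem uniq (hA : StARB) {J : Set S} (p q : S) (D₁ D₂ Y₁ Y₂ : Set S)
    (h : Spl J p q D₁ D₂) (c1 : IsClosed Y₁) (c2 : IsClosed Y₂) (hYU : Y₁ ∪ Y₂ = J)
    (hYI : Y₁ ∩ Y₂ = {p, q}) (n1 : (Y₁ \ {p, q}).Nonempty) (n2 : (Y₂ \ {p, q}).Nonempty) :
    (Y₁ = D₁ ∧ Y₂ = D₂) ∨ (Y₁ = D₂ ∧ Y₂ = D₁) := by
  obtain ⟨h1, h2, hI, hU⟩ := h
  have key : ∀ D : Set S, IsArc D p q → D ⊆ J → D \ {p, q} ⊆ Y₁ ∨ D \ {p, q} ⊆ Y₂ := by
    intro D hD hDJ
    refine sub_or (arc_pcb hA hD) c1 c2 ?_ ?_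
    · intro x hx
      rw [hYU]
      exact hDJ hx.1
    · intro x hx hx2
      rw [hYI] at hx2
      exact hx.2 hx2
  have hD1 : D₁ ⊆ J := by rw [← hU]; exact subset_union_left
  have hD2 : D₂ ⊆ J := by rw [← hU]; exact subset_union_right
  have hI' : D₂ ∩ D₁ = {p, q} := by rw [inter_comm, hI]
  have hU' : D₂ ∪ D₁ = J := by rw [union_comm, hU]
  have hYI' : Y₂ ∩ Y₁ = {p, q} := by rw [inter_comm, hYI]
  have hYU' : Y₂ ∪ Y₁ = J := by rw [union_comm, hYU]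
  rcases key D₁ h1 hD1 with a | a <;> rcases key D₂ h2 hD2 with b | b
  · exfalso
    obtain ⟨x, hx, hxp⟩ := n2
    have hxJ : x ∈ D₁ ∪ D₂ := by rw [hU, ← hYU]; exact Or.inr hx
    have : x ∈ Y₁ := by
      rcases hxJ with hxD | hxD
      · exact a ⟨hxD, hxp⟩
      · exact b ⟨hxD, hxp⟩
    apply hxp
    rw [← hYI]
    exact ⟨this, hx⟩
  · exact Or.inl ⟨uniq_aux hU hI hYU hYI a b, uniq_aux hU' hI' hYU' hYI' b a⟩
  · exact Or.inr ⟨uniq_aux hU' hI' hYU hYI b a, uniq_aux hU hI hYU' hYI' a b⟩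
  · exfalso
    obtain ⟨x, hx, hxp⟩ := n1
    have hxJ : x ∈ D₁ ∪ D₂ := by rw [hU, ← hYU]; exact Or.inl hx
    have : x ∈ Y₂ := by
      rcases hxJ with hxD | hxD
      · exact a ⟨hxD, hxp⟩
      · exact b ⟨hxD, hxp⟩
    apply hxp
    rw [← hYI]
    exact ⟨hx, this⟩

/-- Two arcs with the same end points, one inside the other. -/
private theorem arc_sub_eq (hA : StARB) {D G : Set S} {p q : S} (hD : IsArc D p q)
    (hG : IsArc G p q) (hs : G ⊆ D) : G = D := by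
  apply Subset.antisymm hs
  intro x hx
  by_contra hxG
  have hxp : x ≠ p := fun h => hxG (h ▸ arc_l hA hG)
  have hxq : x ≠ q := fun h => hxG (h ▸ arc_r hA hG)
  obtain ⟨H₁, H₂, e1, e2, e3, e4⟩ := hA.2.1 S D p q x hD hx hxp hxq
  have hpH : p ∉ H₂ := not_mem e4 (arc_l hA e1) hxp.symm
  have hqH : q ∉ H₁ := not_mem (by rw [inter_comm]; exact e4) (arc_r hA e2) hxq.symm
  rcases sub_or (arc_pc hA hG) (arc_cpt hA e1).isClosed (arc_cpt hA e2).isClosed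
    (by rw [e3]; exact hs) (by
      intro y hy hy2
      rw [e4] at hy2
      exact hxG (hy2 ▸ hy)) with h | h
  · exact hqH (h (arc_r hA hG))
  · exact hpH (h (arc_l hA hG))

/-- Uniqueness of the piece of an arc. -/
private theorem piece_eq (hA : StARB) {D E₁ E₂ G : Set S} {p a c : S}
    (e1 : IsArc E₁ p a) (e2 : IsArc E₂ a c) (e3 : E₁ ∪ E₂ = D) (e4 : E₁ ∩ E₂ = {a})
    (hG : IsArc G p a) (hs : G ⊆ D) : G = E₁ := by
  have hpa := arc_ne hA e1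
  have hpE : p ∉ E₂ := not_mem e4 (arc_l hA e1) hpa
  apply arc_sub_eq hA e1 hG
  rcases sub_or (arc_pcr hA hG) (arc_cpt hA e1).isClosed (arc_cpt hA e2).isClosed
    (by rw [e3]; exact fun x hx => hs hx.1) (by
      intro y hy hy2
      rw [e4] at hy2
      exact hy.2 hy2) with h | h
  · intro x hx
    by_cases hxa : x = a
    · rw [hxa]
      exact arc_r hA e1
    · exact h ⟨hx, hxa⟩
  · exact absurd (h ⟨arc_l hA hG, hpa⟩) hpE

private theorem small (hA : StARB) {A O : Set S} {p c : S} (h : IsArc A p c) (hO : IsOpen O)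
    (hp : p ∈ O) : ∃ (a : S) (E₁ E₂ : Set S), a ≠ p ∧ a ≠ c ∧ IsArc E₁ p a ∧ IsArc E₂ a c ∧
      E₁ ∪ E₂ = A ∧ E₁ ∩ E₂ = {a} ∧ E₁ ⊆ O := by
  have hpc := arc_ne hA h
  obtain ⟨r, hr, D₁, hD₁, d1, d2⟩ := hA.2.2.2.1 S A (Oᶜ ∪ {c}) p c h
    (hO.isClosed_compl.union isClosed_singleton) (by
      rintro (h1 | h1)
      · exact h1 hp
      · exact hpc h1) ⟨c, arc_r hA h, Or.inr rfl⟩
  obtain ⟨a, ha, hane⟩ := (arc_pcb hA d1).nonempty
  have hap : a ≠ p := fun h => hane (Or.inl h)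
  have har : a ≠ r := fun h => hane (Or.inr h)
  have haF : a ∉ Oᶜ ∪ {c} := by
    intro h1
    have : a ∈ D₁ ∩ (Oᶜ ∪ {c}) := ⟨ha, h1⟩
    rw [d2] at this
    exact har this
  have hac : a ≠ c := fun h => haF (Or.inr h)
  obtain ⟨E₁, E₂, e1, e2, e3, e4⟩ := hA.2.1 S A p c a h (hD₁ ha) hap hac
  obtain ⟨G₁, G₂, g1, g2, g3, g4⟩ := hA.2.1 S D₁ p r a d1 ha hap har
  have hG1D : G₁ ⊆ D₁ := by rw [← g3]; exact subset_union_left
  have hGE : G₁ = E₁ := piece_eq hA e1 e2 e3 e4 g1 (hG1D.trans hD₁)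
  refine ⟨a, E₁, E₂, hap, hac, e1, e2, e3, e4, ?_⟩
  rw [← hGE]
  intro x hx
  by_contra hxO
  have h1 : x ∈ D₁ ∩ (Oᶜ ∪ {c}) := ⟨hG1D hx, Or.inl hxO⟩
  rw [d2] at h1
  have h2 : r ∉ G₁ := not_mem (by rw [inter_comm]; exact g4) (arc_r hA g2) har.symm
  exact h2 (h1 ▸ hx)

private theorem nbhd (hA : StARB) {J : Set S} (hJ : IsSCC J) {p : S} (hp : p ∈ J) {O : Set S}
    (hO : IsOpen O) (hpO : p ∈ O) : ∃ (a b : S) (D₁ D₂ : Set S), Spl J a b D₁ D₂ ∧ D₂ ⊆ O ∧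
      p ∈ D₂ ∧ p ≠ a ∧ p ≠ b := by
  obtain ⟨c, A₁, A₂, h1, h2, h3, h4⟩ := split_one hA hJ hp
  obtain ⟨a, E₁, E₂, hap, hac, e1, e2, e3, e4, e5⟩ := small hA h1 hO hpO
  obtain ⟨b, F₁, F₂, hbp, hbc, f1, f2, f3, f4, f5⟩ := small hA h2 hO hpO
  have E1A : E₁ ⊆ A₁ := by rw [← e3]; exact subset_union_left
  have E2A : E₂ ⊆ A₁ := by rw [← e3]; exact subset_union_right
  have F1A : F₁ ⊆ A₂ := by rw [← f3]; exact subset_union_left
  have F2A : F₂ ⊆ A₂ := by rw [← f3]; exact subset_union_right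
  have pE2 : p ∉ E₂ := not_mem e4 (arc_l hA e1) hap.symm
  have pF2 : p ∉ F₂ := not_mem f4 (arc_l hA f1) hbp.symm
  have cE1 : c ∉ E₁ := not_mem (by rw [inter_comm]; exact e4) (arc_r hA e2) hac.symm
  have cF1 : c ∉ F₁ := not_mem (by rw [inter_comm]; exact f4) (arc_r hA f2) hbc.symm
  have hx : ∀ x ∈ A₁, x ∈ A₂ → x = p ∨ x = c := by
    intro x ha hb
    have : x ∈ A₁ ∩ A₂ := ⟨ha, hb⟩
    rw [h3] at this
    exact this
  have i1 : E₁ ∩ F₁ = {p} := by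
    apply Subset.antisymm
    · rintro x ⟨hx1, hx2⟩
      rcases hx x (E1A hx1) (F1A hx2) with rfl | rfl
      · rfl
      · exact absurd hx1 cE1
    · rintro x rfl
      exact ⟨arc_l hA e1, arc_l hA f1⟩
  have i2 : E₂ ∩ F₂ = {c} := by
    apply Subset.antisymm
    · rintro x ⟨hx1, hx2⟩
      rcases hx x (E2A hx1) (F2A hx2) with rfl | rfl
      · exact absurd hx1 pE2
      · rfl
    · rintro x rfl
      exact ⟨arc_r hA e2, arc_r hA f2⟩
  refine ⟨a, b, E₂ ∪ F₂, E₁ ∪ F₁, ⟨hA.2.2.1 S E₂ F₂ a b c e2 (arc_symm hA f2) i2,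
    hA.2.2.1 S E₁ F₁ a b p (arc_symm hA e1) f1 i1, ?_, ?_⟩, union_subset e5 f5,
    Or.inl (arc_l hA e1), hap.symm, hbp.symm⟩
  · apply Subset.antisymm
    · rintro x ⟨hx1 | hx1, hx2 | hx2⟩
      · have : x ∈ E₁ ∩ E₂ := ⟨hx2, hx1⟩
        rw [e4] at this
        exact Or.inl this
      · exfalso
        rcases hx x (E2A hx1) (F1A hx2) with rfl | rfl
        · exact pE2 hx1
        · exact cF1 hx2
      · exfalso
        rcases hx x (E1A hx2) (F2A hx1) with rfl | rfl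
        · exact pF2 hx1
        · exact cE1 hx2
      · have : x ∈ F₁ ∩ F₂ := ⟨hx2, hx1⟩
        rw [f4] at this
        exact Or.inr this
    · rintro x (rfl | rfl)
      · exact ⟨Or.inl (arc_l hA e2), Or.inl (arc_r hA e1)⟩
      · exact ⟨Or.inr (arc_l hA f2), Or.inr (arc_r hA f1)⟩
  · rw [← h4, ← e3, ← f3]
    ext x
    simp only [mem_union]
    tauto

/-- MODULE SCL. -/
theorem hSCL (hARB : StARB) : StSCL := by
  intro S _ _ J hJ
  refine ⟨fun p hp q hq hpq => split_two hARB hJ hp hq hpq,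
    fun p q D₁ D₂ Y₁ Y₂ h c1 c2 hU hI n1 n2 => uniq hARB p q D₁ D₂ Y₁ Y₂ h c1 c2 hU hI n1 n2,
    fun p hp O hO hpO => nbhd hARB hJ hp hO hpO, ?_, ?_, ?_, ?_⟩
  · intro S' _ f hf hinj
    obtain ⟨p, q, D₁, D₂, h1, h2, h3, h4⟩ := hJ
    have hD1 : D₁ ⊆ J := by rw [← h4]; exact subset_union_left
    have hD2 : D₂ ⊆ J := by rw [← h4]; exact subset_union_right
    refine ⟨f p, f q, f '' D₁, f '' D₂,
      hARB.2.2.2.2.2 S S' D₁ p q f h1 (hf.mono hD1) (hinj.mono hD1),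
      hARB.2.2.2.2.2 S S' D₂ p q f h2 (hf.mono hD2) (hinj.mono hD2), ?_, ?_⟩
    · rw [← hinj.image_inter hD1 hD2, h3, image_pair]
    · rw [← image_union, h4]
  · obtain ⟨p, q, D₁, D₂, h1, h2, h3, h4⟩ := hJ
    rw [← h4]
    exact (arc_cpt hARB h1).union (arc_cpt hARB h2)
  · obtain ⟨p, q, D₁, D₂, h1, h2, h3, h4⟩ := hJ
    rw [← h4]
    exact (arc_pc hARB h1).union (arc_pc hARB h2) ⟨p, arc_l hARB h1, arc_l hARB h2⟩
  · intro p hp
    obtain ⟨c, A₁, A₂, h1, h2, h3, h4⟩ := split_one hARB hJ hp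
    have hpc := arc_ne hARB h1
    rw [← h4, union_sdiff_distrib]
    exact (arc_pcl hARB h1).union (arc_pcl hARB h2)
      ⟨c, ⟨arc_r hARB h1, hpc.symm⟩, ⟨arc_r hARB h2, hpc.symm⟩⟩

end Pool.Agent.Helper78.TW
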