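import Pool.Agent.Helper13.TW.StC

/-!
Project TW (MP_a45945_gt), module SMC: small crosscuts cut off small pieces.
-/

set_option autoImplicit false

namespace Pool.Agent.Helper78.TW

open Set Topology Pool.Agent.Helper13.TR Pool.Agent.Helper13.TW

/-- MODULE SMC. -/
theorem hSMC (hTWO : StTWO) (hUAR : StUAR) (hWD : StWD) (hSCL : StSCL) (hARB : StARB)
    (hTHE : StTHE) : StSMC := by
  intro S _ _ _ ω V hGR hLH J hCel η hη
  obtain ⟨-, -, hcpt, -, -⟩ := hTWO S ω V hGR J hCel.1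
  have hJ : IsSCC J := hCel.1.1
  have hη4 : 0 < η / 4 := by linarith
  choose U hUo hxU hUb hU using fun x : S => hLH x (Metric.ball x (η / 4)) Metric.isOpen_ball
    (Metric.mem_ball_self hη4)
  obtain ⟨lam, hlam, hleb⟩ := lebesgue_number_lemma_of_metric (c := U) hcpt hUo
    (fun x _ => mem_iUnion.2 ⟨x, hxU x⟩)
  obtain ⟨δ, hδ, hδ2⟩ := hUAR S J hJ (lam / 2) (by linarith)
  refine ⟨min δ (lam / 2), lt_min hδ (by linarith), ?_⟩
  intro p q D₁ D₂ P hSpl hCrs hP
  have hPδ : Metric.diam P < δ := lt_of_lt_of_le hP (min_le_left _ _)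
  have hPl : Metric.diam P < lam / 2 := lt_of_lt_of_le hP (min_le_right _ _)
  have hParc := hCrs.1
  obtain ⟨-, hPc, hpP, hqP, hpq, -⟩ := hARB.1 S P p q hParc
  have hpJ : p ∈ J := by
    have : p ∈ P ∩ J := by rw [hCrs.2.1]; exact Or.inl rfl
    exact this.2
  have hqJ : q ∈ J := by
    have : q ∈ P ∩ J := by rw [hCrs.2.1]; exact Or.inr rfl
    exact this.2
  have hd : dist p q < δ := lt_of_le_of_lt (Metric.dist_le_diam_of_mem hPc.isBounded hpP hqP) hPδ
  obtain ⟨A, B, hAB, hA⟩ := hδ2 p hpJ q hqJ hpq hd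
  obtain ⟨x, hx⟩ := hleb p (Or.inl hpJ)
  have key : ∀ D : Set S, IsArc D p q → Metric.diam D < lam / 2 → Cel ω V (D ∪ P) →
      Metric.diam (cl ω (D ∪ P)) < η := by
    intro D hD hdD hc
    obtain ⟨-, hDc, hpD, -⟩ := hARB.1 S D p q hD
    have hsub : D ∪ P ⊆ U x := by
      intro y hy
      apply hx
      rw [Metric.mem_ball]
      rcases hy with hy | hy
      · have := Metric.dist_le_diam_of_mem hDc.isBounded hy hpD
        linarith
      · have := Metric.dist_le_diam_of_mem hPc.isBounded hy hpP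
        linarith
    have hIns : Ins ω (D ∪ P) ⊆ Metric.ball x (η / 4) :=
      (hWD S ω V hGR).2.2.2 (D ∪ P) (U x) (Metric.ball x (η / 4)) hc.1.1 hc.1.2.1 hsub (hU x)
    have hcl : cl ω (D ∪ P) ⊆ Metric.ball x (η / 4) :=
      union_subset (hsub.trans (hUb x)) hIns
    have h1 := Metric.diam_mono hcl Metric.isBounded_ball
    have h2 := Metric.diam_ball (x := x) hη4.le
    linarith
  obtain ⟨hc1, hc2, -⟩ := hTHE S ω V hGR J hCel p q D₁ D₂ P hSpl hCrs
  have hAb := hARB.1 S A p q hAB.1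
  have hBb := hARB.1 S B p q hAB.2.1
  rcases (hSCL S J hJ).2.1 p q D₁ D₂ A B hSpl hAb.2.1.isClosed hBb.2.1.isClosed hAB.2.2.2
    hAB.2.2.1 hAb.2.2.2.2.2.2.2.2.1.nonempty hBb.2.2.2.2.2.2.2.2.1.nonempty with h | h
  · left
    apply key D₁ hSpl.1 _ hc1
    rw [← h.1]
    exact hA
  · right
    apply key D₂ hSpl.2.1 _ hc2
    rw [← h.1]
    exact hA

end Pool.Agent.Helper78.TW
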