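import Pool.Agent.Helper28.WK.StA
import Pool.Agent.Helper14.CV.StD

/-!
# Project TW: twists of the newforms of level `2^n` by even characters of odd conductor

THEOREM. For every primitive even Dirichlet character `χ` of odd conductor `D > 1` with `χ(2) = 1`
(any order) there is a constant `C` such that for all `n` all but `C 2^(n/2)` of the newforms `f` of
weight `2`, level `2^n` and root number `+1` satisfy `L(1/2, f × χ) ≠ 0`.

Objects of project CV: `Homog`, `EqC`, `act`, `Sym`, `Tl`, `ev`, `evL`. `ph D c` is the functional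
`G ↦ ∑_{0 ≤ a < D} c(a) G(a, D)`. Method: `ph` vanishes on all symbols which are killed by `ev` (kernel
theorem `Kk`), so it is a combination of the functionals `ev i j`; with coefficients in a discrete
valuation ring `A` over `2` one can divide it by the largest power of the uniformiser; the
reduction is then a nonzero polynomial in `T_3`, `T_5` applied to `ev`, whose coefficients do not
depend on `n` in low degrees; nilpotency of `T_3`, `T_5` modulo `2` gives the bound.
-/

set_option autoImplicit false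

open Pool.Agent.Helper14.CV Pool.Agent.Helper28.WK

namespace Pool.Agent.Helper78.TW

/-- The twisted functional `∑_{0 ≤ a < D} c(a) G(a, D)`. -/
def ph {R : Type} [CommRing R] (D : ℕ) (c : ZMod D → R) (G : ℤ → ℤ → R) : R :=
  ∑ a ∈ Finset.range D, c (a : ZMod D) * G (a : ℤ) (D : ℤ)

/-- The twisted functional on integral potentials. -/
def phz {A : Type} [CommRing A] (D : ℕ) (c : ZMod D → A) (G : ℤ → ℤ → ℤ) : A :=
  ph D c (fun p q => ((G p q : ℤ) : A))

/-- Admissible coefficients: for instance `χ + χ⁻¹` for a character `χ` with `χ(-1) = χ(2) = 1`. -/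
structure Adm {R : Type} [CommRing R] (D : ℕ) (c : ZMod D → R) : Prop where
  odd : Odd D
  one : 1 < D
  supp : ∀ a : ZMod D, ¬ IsUnit a → c a = 0
  two : ∀ a : ZMod D, c (2 * a) = c a
  neg : ∀ a : ZMod D, c (-a) = c a
  inv : ∀ a b : ZMod D, a * b = 1 → c a = c b
  sum : ∑ a ∈ Finset.range D, c (a : ZMod D) = 0

/-! ### Elementary properties of symbols -/

/-- CM. The operators `T_3` and `T_5` commute on symbols, so `ev` shifts. Proof. (i) For a symbol `G` of
level `(0, n)`: `G (p + t q) q = G p q` for integers `t` and `(p, q) ≠ 0` (the constant of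
`(1 t; 0 1)` is `0`: evaluate at `(1, 0)`, where `G (1 + 0) 0 = G 1 0`). (ii) `Tl 3 1 (Tl 5 1 G)` at `(p, q)` is the
sum of `G` at `(15 p, q)`, `(5 (p + i q), 3 q)` for `i < 3`, `(3 p + j q, 5 q)` for `j < 5` and
`(p + i q + j (3 q), 15 q)`; `Tl 5 1 (Tl 3 1 G)` is the sum of `G` at `(15 p, q)`, `(3 (p + j q), 5 q)`, `j < 5`,
`(5 p + i q, 3 q)`, `i < 3`, `(p + j q + i (5 q), 15 q)`. The last families agree (`i + 3 j` and `j + 5 i` both
run through `0, ..., 14`). Modulo (i) (translations by multiples of the second entry) `5 i` and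
`i` run through the same classes modulo `3`, and `3 j` and `j` through the same classes modulo `5` (expand
the sums with `Finset.sum_range_succ`). So `Tl 3 1 (Tl 5 1 G) = Tl 5 1 (Tl 3 1 G)` away from the origin.
(iii) `(Tl 3 1)^[i] ((Tl 5 1)^[j] (Tl 3 1 G))` and `(Tl 3 1)^[i + 1] ((Tl 5 1)^[j] G)` agree away from the
origin: induction on `j`, using `StHkS` (all iterates are symbols) and `EqC.Tl_iter` (constant `0`;
or: the values of `Tl` away from the origin depend only on the values away from the origin). The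
second statement is clear (`Function.iterate_succ_apply`). -/
def StCm : Prop := StHkS → ∀ (R : Type) (_ : AddCommGroup R) (n : ℕ) (G : ℤ → ℤ → R), Sym 0 n G →
  ∀ i j : ℕ, ev 1 (Tl 3 1 G) i j = ev 1 G (i + 1) j ∧ ev 1 (Tl 5 1 G) i j = ev 1 G i (j + 1)

/-- The content of CM, and its iterates (also symbols). -/
def Cm : Prop := ∀ (R : Type) (_ : AddCommGroup R) (n : ℕ) (G : ℤ → ℤ → R), Sym 0 n G →
  ∀ i j : ℕ, Sym 0 n ((Tl 3 1)^[i] ((Tl 5 1)^[j] G)) ∧
    ∀ i' j' : ℕ, ev 1 ((Tl 3 1)^[i] ((Tl 5 1)^[j] G)) i' j' = ev 1 G (i' + i) (j' + j)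

/-- CM2. From CM by induction (`ev 1 ((Tl 3 1)^[i+1] H) i' j' = ev 1 (Tl 3 1 ((Tl 3 1)^[i] H)) i' j'`). -/
def StCm2 : Prop := StHkS →
  (∀ (R : Type) (_ : AddCommGroup R) (n : ℕ) (G : ℤ → ℤ → R), Sym 0 n G →
    ∀ i j : ℕ, ev 1 (Tl 3 1 G) i j = ev 1 G (i + 1) j ∧ ev 1 (Tl 5 1 G) i j = ev 1 G i (j + 1)) → Cm

/-- PHW. The functional and the Fricke involution. Proof. Let `a < D` with `a` a unit modulo `D` (the
others have `c a = 0`). Choose integers `β, δ` with `-D δ - 2^n a β = 1` (`D` is odd and `a` prime to `D`).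
The matrix `γ = (-D β; 2^n a δ)` is in the group of level `(0, n)`: `G (γ v) = G v + k` for all nonzero `v`.
`v = (1, 0)`: `G (-D) (2^n a) = G 1 0 + k`. `v = (-β, -D)`: `γ v = (D β - D β, -2^n a β - D δ) = (0, 1)`, so
`G 0 1 = G (-β) (-D) + k = G β D + k` (`Homog`). So `act 0 (-1) (2^n) 0 G a D = G (-D) (2^n a) =`
`G 1 0 + G 0 1 - G β D`, and `G β D = G b D` for the residue `b` of `β` modulo `D` (translation invariance, see
CM (i)), with `2^n a b = -1` in `ZMod D`. The map `a ↦ b` is an involution of the units, and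
`∑ c(a) (G 1 0 + G 0 1) = 0` by the hypothesis on the sum. -/
def StPhW : Prop := ∀ (R : Type) (_ : CommRing R) (D n : ℕ) (c c' : ZMod D → R), Odd D → 1 < D →
  (∀ a : ZMod D, ¬ IsUnit a → c a = 0 ∧ c' a = 0) → ∑ a ∈ Finset.range D, c (a : ZMod D) = 0 →
  (∀ a b : ZMod D, 2 ^ n * a * b = -1 → c' b = c a) → ∀ G : ℤ → ℤ → R, Sym 0 n G →
  ph D c (act 0 (-1) (2 ^ n) 0 G) = -ph D c' G

/-- The content of PHE. -/
def PhE : Prop := ∀ (R : Type) (_ : CommRing R) (D : ℕ) (c : ZMod D → R), Adm D c →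
  ∀ (n : ℕ) (G H : ℤ → ℤ → R), (EqC G H → ph D c G = ph D c H) ∧
  (Sym 0 n G → ph D c (act 2 0 0 1 G) = ph D c G ∧
    ph D c (act 0 (-1) (2 ^ n) 0 G) = -ph D c G ∧ ph D c (act (-1) 0 0 1 G) = ph D c G)

/-- PHE. The functional under constants, `u = act 2 0 0 1`, the Fricke involution and `*`. Proof.
Constants: `Adm.sum`. `act 2 0 0 1 G a D = G (2 a) D = G a' D` with `a'` the residue of `2 a` modulo `D`
(translation invariance `G (p + t q) q = G p q` of CM (i)), `a ↦ a'` is a bijection of `ZMod D` (`D` odd)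
and `c a = c (2 a)`: reindex. The same for `-a`. The Fricke involution: PHW with `c' = c`: if
`2^n a b = -1` then `c b = c (2^n a)⁻¹` up to sign, `c (2^n a) = c a` (`two`, induction), `(2^n a) (-b) = 1`,
`inv`, `neg`. -/
def StPhE : Prop := (∀ (R : Type) (_ : CommRing R) (D n : ℕ) (c c' : ZMod D → R), Odd D → 1 < D →
  (∀ a : ZMod D, ¬ IsUnit a → c a = 0 ∧ c' a = 0) → ∑ a ∈ Finset.range D, c (a : ZMod D) = 0 →
  (∀ a b : ZMod D, 2 ^ n * a * b = -1 → c' b = c a) → ∀ G : ℤ → ℤ → R, Sym 0 n G →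
  ph D c (act 0 (-1) (2 ^ n) 0 G) = -ph D c' G) → PhE

/-- The content of LIN. -/
def LinC : Prop := ∀ (D : ℕ) (c : ZMod D → ℂ), Adm D c → ∀ n : ℕ, 5 ≤ n → ∀ H : ℤ → ℤ → ℂ,
  Sym 0 n H → (∀ i j : ℕ, ev 1 H i j = 0) → ph D c H = 0

/-- LIN. `ph` vanishes on the kernel of `ev`. Proof. `W = act 0 (-1) (2^n) 0`, `* = act (-1) 0 0 1`.
`H1 = H - W H`, `H2 = H1 + * H1`: by NRM a symbol, `W H1 ≈ -H1` (`W W = act (-2^n) 0 0 (-2^n)`, so
`W W H = H` away from the origin by `Homog`), `W H2 ≈ -H2` (last part of `StCom`: `W * H1 ≈ * W H1`),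
`* H2 ≈ H2`, `ev H2 = 0` (`StEv`). By `Kk`: `u ψ - ψ ≈ H2` with `ψ` a symbol of level `2^(n-1)`. So by PHE
(applied at level `n - 1` for `u`, at level `n` for `W` and `*`)
`0 = ph (u ψ) - ph ψ = ph H2 = 4 ph H`: `ph (W H) = -ph H`, `ph H1 = 2 ph H`, `ph (* H1) = ph H1`. -/
def StLin : Prop := StNrm → StEv → StCom → Kk → PhE → LinC

/-! ### Linear algebra -/

/-- COEF. The functional is a combination of the functionals `ev`, with coefficients in the ideal
generated by its values. Proof. `M = (ev 1 (G k) (ij l))` has odd determinant, a unit of `A` (odd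
integers are units of `A`, since `2` is in the maximal ideal). Let `b = M⁻¹ v` (over `A`, with the
adjugate and the inverse of the determinant), `v k = phz D c (G k)`: so
`v k = ∑_l b l M k l` and `b l ∈ I`. Let `h` be an integral symbol. The
complexifications of the `G k` have independent `evL` (`det ≠ 0`), so by `DimS`
`ev 1 h i j = ∑_k y k ev 1 (G k) i j` for all `i, j` with complex `y k`; `h - ∑ y k G k` is killed by `ev`, so
by `LinC` (for `ι ∘ c`, admissible) `ι (phz D c h) = ∑_k y k ι (v k) = ∑_k y k ∑_l ι (b l) M k l =`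
`∑_l ι (b l) ev 1 h (ij l)`; `ι` is injective. -/
def StCoef : Prop := LinC → DimS → ∀ (A : Type) (_ : CommRing A) (_ : IsDomain A)
  (_ : IsLocalRing A) (ι : A →+* ℂ), (2 : A) ∈ IsLocalRing.maximalIdeal A →
  Function.Injective ι → ∀ (D : ℕ) (c : ZMod D → A), Adm D c → ∀ n : ℕ, 5 ≤ n →
  ∀ (G : Fin (DD n) → ℤ → ℤ → ℤ) (ij : Fin (DD n) → ℕ × ℕ), (∀ k, Sym 0 n (G k)) →
  Odd (Matrix.det (Matrix.of fun k l => ev 1 (G k) (ij l).1 (ij l).2)) →
  ∀ I : Ideal A, (∀ k, phz D c (G k) ∈ I) →
  ∃ b : Fin (DD n) → A, (∀ l, b l ∈ I) ∧ ∀ h : ℤ → ℤ → ℤ, Sym 0 n h →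
    phz D c h = ∑ l, b l * ((ev 1 h (ij l).1 (ij l).2 : ℤ) : A)

/-- The content of COEF. -/
def Coef : Prop := ∀ (A : Type) (_ : CommRing A) (_ : IsDomain A)
  (_ : IsLocalRing A) (ι : A →+* ℂ), (2 : A) ∈ IsLocalRing.maximalIdeal A →
  Function.Injective ι → ∀ (D : ℕ) (c : ZMod D → A), Adm D c → ∀ n : ℕ, 5 ≤ n →
  ∀ (G : Fin (DD n) → ℤ → ℤ → ℤ) (ij : Fin (DD n) → ℕ × ℕ), (∀ k, Sym 0 n (G k)) →
  Odd (Matrix.det (Matrix.of fun k l => ev 1 (G k) (ij l).1 (ij l).2)) →
  ∀ I : Ideal A, (∀ k, phz D c (G k) ∈ I) →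
  ∃ b : Fin (DD n) → A, (∀ l, b l ∈ I) ∧ ∀ h : ℤ → ℤ → ℤ, Sym 0 n h →
    phz D c h = ∑ l, b l * ((ev 1 h (ij l).1 (ij l).2 : ℤ) : A)

/-- The content of NIL. -/
def Nil : Prop := ∀ n : ℕ, 5 ≤ n → ∀ h : ℤ → ℤ → ℤ, Sym 0 n h → ∀ i j : ℕ,
  2 ^ (n / 2 + 1) < 3 * i + 4 * j → (2 : ℤ) ∣ ev 1 h i j

/-- NIL. Nilpotency modulo `2`. Proof. `n = 2k`: `r = s = k - 1`; `n = 2k + 1`: `r = k`, `s = k - 1`; so
`n = r + s + 2`, `r + s ≥ 3`. `G(p, q) = h(p, 2^(r+1) q)` modulo `2` is a symbol of level `(r+1, s+1)` with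
`G(2^(r+1) p, q) = h(p, q)` and `ev (2^(r+1)) G = ev 1 h` modulo `2` (transport as in
Pool/Agent/Helper96/CV/M_LBof.lean and Pool/Agent/Helper81/WK/M_Bas.lean). By the last parts of
`StLow0` its plane function `F1` is in `Wd (2^r + 2^s - 2)`, so `StItr` gives `ev = 0` in `ZMod 2` for
`3 i + 4 j > 2^r + 2^s - 2`, and `2^r + 2^s - 2 ≤ 2^(n/2+1)`. -/
def StNil : Prop := StItr → StLow0 → Nil

/-- The content of RK. -/
def Rk : Prop := ∀ (F : Type) (_ : Field F) (N w w1 : ℕ) (E : ℕ → ℕ → Fin N → F)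
  (S : Finset (ℕ × ℕ)) (g : ℕ × ℕ → F),
  Submodule.span F (Set.range fun p : ℕ × ℕ => E p.1 p.2) = ⊤ →
  (∀ i j : ℕ, w < 3 * i + 4 * j → E i j = 0) →
  (∃ p ∈ S, g p ≠ 0 ∧ 3 * p.1 + 4 * p.2 ≤ w1) →
  N ≤ Module.finrank F (Submodule.span F (Set.range fun q : ℕ × ℕ =>
    ∑ p ∈ S, g p • E (q.1 + p.1) (q.2 + p.2))) + w1 * (w + 1)

/-- RK. Rank of the multiplication by a nonzero polynomial on a quotient of a truncated polynomial
ring (self-contained). Proof. Let `V` be the space of functions on the finite set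
`S_w = {(i, j) | 3i + 4j ≤ w}` (polynomials of weight `≤ w`), `e : V → (Fin N → F)` the linear map with
`e (δ_(i,j)) = E i j`: surjective by the first two hypotheses. Let `ω` be the minimal weight
`3 p.1 + 4 p.2` of the `p ∈ S` with `g p ≠ 0`; `ω ≤ w1`. For `q` of weight `≤ w - ω` let `v_q ∈ V` be
`(i, j) ↦ g (i - q.1, j - q.2)` (if `(i - q.1, j - q.2) ∈ S`, otherwise `0`), the truncation of `x^q g`. The `v_q` are
linearly independent: let `∑ h_q v_q = 0`, not all `h_q = 0`, `m` the minimal weight of the `q` with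
`h_q ≠ 0`, `m + ω ≤ w`; among the `q` of weight `m` with `h_q ≠ 0` and the `p` of weight `ω` with `g p ≠ 0` take the
ones with the largest first entry; the coefficient at `q + p` is `h_q g_p ≠ 0` (any other pair
`q' + p' = q + p` has weights `≥ m`, `≥ ω`, so equal to `m`, `ω`, and `q'.1 + p'.1 = q.1 + p.1`, so `q' = q`: the weight
and the first entry determine the second). And `e (v_q) = ∑_p g p • E (q.1 + p.1) (q.2 + p.2)` (the terms of
weight `> w` are `0`). So the rank is at least `n(w - ω) - dim ker e = n(w - ω) - n(w) + N`, where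
`n(v) = #S_v`, and `n(w) - n(w - ω)`, the number of `(i, j)` with `w - ω < 3i + 4j ≤ w`, is at most
`ω (w + 1)` (at most `w + 1` for each value of `3i + 4j`, since `i ≤ w` determines `j`). If `ω > w` then
`N ≤ n(w) ≤ (w + 1)(w + 1) ≤ w1 (w + 1)`. -/
def StRk : Prop := Rk

/-- The content of UP. -/
def Up : Prop := ∀ (A : Type) (_ : CommRing A) (_ : IsDomain A) (_ : IsLocalRing A)
  (ι : A →+* ℂ), Function.Injective ι → ∀ (N r : ℕ) (V : ℕ × ℕ → Fin N → A)
  (y : Fin r → Fin N → ℂ), LinearIndependent ℂ y →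
  (∀ (b : Fin r) (p : ℕ × ℕ), ∑ k, y b k * ι (V p k) = 0) →
  r + Module.finrank (IsLocalRing.ResidueField A) (Submodule.span (IsLocalRing.ResidueField A)
    (Set.range fun (p : ℕ × ℕ) (k : Fin N) => IsLocalRing.residue A (V p k))) ≤ N

/-- UP. The rank over the residue field is at most the rank over `ℂ` (self-contained). Proof. Let
`d` be the dimension of the span of the reductions; choose `p_1, ..., p_d` such that the reductions
of the vectors `V p_s` are linearly independent (a basis of the span out of the generating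
set). The `d × N` matrix of reductions has rank `d`, so a `d × d` minor (columns `k_1, ..., k_d`) is not zero in
the residue field, so the same minor of `(V p_s k_t)` is not zero in `A`, and (`ι` injective) not in
`ℂ`. So the `d` vectors `(ι (V p_s k))_k` of `ℂ^N` are linearly independent, the space of
`z` with `∑_k z k ι (V p_s k) = 0` for all `s` has dimension `N - d`, and it contains the `r` independent
vectors `y b`. -/
def StUp : Prop := Up

/-- VAL. A discrete valuation ring over `2` in `ℂ` which contains the roots of unity of order `m`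
(self-contained). Proof. `K = CyclotomicField m ℚ` (or any number field with the roots), `𝓞 K` its ring
of integers, `P` a maximal ideal of `𝓞 K` containing `2` (`2` is not a unit: its norm is not `±1`; or
`Ideal.exists_ideal_over_maximal_of_isIntegral`), `A = Localization.AtPrime P`
(`IsLocalization.AtPrime.isDiscreteValuationRing_of_dedekind_domain`), `ι` the composite
`A → K → ℂ` (`IsLocalization.lift`, and an embedding of `K` into `ℂ`); the roots of unity of order `m`
in `ℂ` are the images of those of `𝓞 K` (a primitive one goes to a primitive one). -/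
def StVal : Prop := ∀ m : ℕ, 1 ≤ m → ∃ (A : Type) (_ : CommRing A) (_ : IsDomain A)
  (_ : IsDiscreteValuationRing A) (ι : A →+* ℂ), Function.Injective ι ∧
  (2 : A) ∈ IsLocalRing.maximalIdeal A ∧ ∀ z : ℂ, z ^ m = 1 → ∃ a : A, ι a = z

/-! ### Nonvanishing of the functional -/

/-- The content of PATH. The matrix `g = (a, 2b; 2c, d)` has `g(1,0) = (a, 2c)`, `g(0,1) = (2b, d)`,
`g(1,1) = (a + 2b, 2c + d)`; `t = (e, a, b, c, d)`. -/
def Path : Prop := ∀ u v : ℤ, IsCoprime u v → 0 < v →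
  ∃ P1 P3 : List (ℤ × ℤ × ℤ × ℤ × ℤ),
  (∀ t ∈ P1, t.2.1 * t.2.2.2.2 - 4 * t.2.2.1 * t.2.2.2.1 = 1 ∧ t.2.2.2.1 ≠ 0 ∧
    |2 * t.2.2.2.1| ≤ v) ∧
  (∀ t ∈ P3, t.2.1 * t.2.2.2.2 - 4 * t.2.2.1 * t.2.2.2.1 = 1) ∧
  ∀ (R : Type) (_ : AddCommGroup R) (G : ℤ → ℤ → R), Homog G →
    G u v - G 0 1 =
      (P1.map fun t => t.1 • (G t.2.1 (2 * t.2.2.2.1) - G (2 * t.2.2.1) t.2.2.2.2)).sum +
      (P3.map fun t => t.1 • (G (t.2.1 + 2 * t.2.2.1) (2 * t.2.2.2.1 + t.2.2.2.2) -
        G (2 * t.2.2.1) t.2.2.2.2)).sum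

/-- PATH. A cusp is joined to `0` by Farey edges with finite ends, written with the values on
`g{0,∞}` (list `P1`) and `g{0,1}` (list `P3`), `g` in `Γ(2)`. Proof. Call such a difference `G u v - G 0 1`
(for all homogeneous `G`) representable with bound `v`; sums of representable differences:
concatenate the lists. (1) One edge: if `(α β; γ δ)` has determinant one and `1 ≤ |γ|, |δ| ≤ v` then
`G α γ - G β δ` has such lists. Modulo `2` the matrix is one of six. `≡ 1` (`β, γ` even): it is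
`g(1,0), g(0,1)` for `g = (α β; γ δ)`: one element of `P1`, `c = γ/2 ≠ 0`. `≡ (1 0; 1 1)` (`β` even, `γ` odd):
`g = (α - β, β; γ - δ, δ)`: the pair is `g(1,1), g(0,1)`: one element of `P3`. `≡ (1 1; 0 1)` (`β` odd, `γ` even):
`g = (α, β - α; γ, δ - γ)`: `(α, γ) = g(1,0)`, `(β, δ) = g(1,1)`:
`G α γ - G β δ = (G g(1,0) - G g(0,1)) - (G g(1,1) - G g(0,1))`: one element in each list, `2c = γ ≠ 0`. The other
three classes are these after exchanging the two columns with a sign: `(β, -α; δ, -γ)` has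
determinant one, `G (-α) (-γ) = G α γ` by `Homog`. (2) `v = 1`: `G u 1 - G 0 1` is the sum of the edges
`G (j+1) 1 - G j 1` (matrix `(j+1, j; 1, 1)`), for `u < 0` with the opposite sign. (3) `v ≥ 2`: take `0 < v' < v`
and `u'` with `u v' - v u' = 1` (`v'` the inverse of `u` modulo `v`): `G u v - G u' v'` is one edge, and
induction on `v` for `(u', v')`. -/
def StPath : Prop := Path

/-- The content of GRID. -/
def Grid : Prop := ∀ (r : ℕ) (lam : ZMod (2 ^ r) → ZMod (2 ^ r) → ℂ)
  (S : Finset (ZMod (2 ^ r) × ZMod (2 ^ r))), S.card < 2 ^ r →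
  (∀ x y : ZMod (2 ^ r), (x, y) ∉ S → tA 1 lam x y = lam x y ∧ tB 1 lam x y = lam x y) →
  ∃ z : ℂ, (Finset.univ.filter fun x : ZMod (2 ^ r) => lam x 0 ≠ z).card ≤ S.card

/-- GRID (self-contained). The plane with the two transformations
`A : (x, y) ↦ (x + 1, y/(1 + 4y))`, `B : (x, y) ↦ (x/(1 + 4x), y + 1)` is a grid. Proof. `q = 2^r`.
`A^m (x, y) = (x + m, y/(1 + 4 m y))`, so every orbit of `A` (row) has exactly `q` points, one for each
first coordinate; rows are labelled by the `y` of their point `(0, y)`: `{(x, y/(1 + 4xy))}`. Columns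
(orbits of `B`): `{(x/(1 + 4xt), t)}`, labelled by `x`. The row of `y0` and the column of `x0` meet: one needs
`x (1 + 4 x0 t) = x0`, `t (1 + 4 y0 x) = y0`; start with any `x` and iterate
`t = y0/(1 + 4 y0 x)`, `x = x0/(1 + 4 x0 t)`: if `x` changes by a multiple of `2^k` then the new `x` changes by a
multiple of `2^(k+4)`, so after `r` steps it is fixed. `lam` is constant on a row or column which
contains no point of `S`. There are `q` disjoint rows and fewer than `q` points in `S`, so one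
row is free of `S`; let `z` be its value. Every column free of `S` meets it, so `lam = z` on it. The
points `(x, 0)` lie in different columns (`(x, 0)` is in the column of `x`), so `lam x 0 ≠ z` for at
most `#S` values of `x`. -/
def StGrid : Prop := Grid

/-- The content of DUAL. -/
def Dual : Prop := ∀ (r s : ℕ) (al be : ZMod (2 ^ r) → ZMod (2 ^ s) → ℂ),
  (∀ F1 F3 : ZMod (2 ^ r) → ZMod (2 ^ s) → ℂ, Rel F1 F3 →
    ∑ x, ∑ y, (al x y * F1 x y + be x y * F3 x y) = 0) →
  ∃ lam : ZMod (2 ^ r) → ZMod (2 ^ s) → ℂ, ∀ x y,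
    al x y = tA (-1) lam x y - lam x y ∧ be x y = lam x y - tB 1 (tA (-1) lam) x y

/-- DUAL (self-contained linear algebra). A functional which vanishes on all solutions of the
relations is a combination of the relations. Proof. `Rel F1 F3` says that the functionals
`L_p (F1, F3) = F1(pA) - F1(p) - F3(pAB⁻¹) + F3(p)` vanish (`p = (x, y)`). By
`mem_span_of_iInf_ker_le_ker` (finitely many functionals) the given functional is `∑_p lam(p) L_p`; compare
the coefficients of `F1(p)`, `F3(p)` (take delta functions; `p ↦ pA`, `p ↦ pB` are bijections of the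
plane with inverses `A⁻¹`, `B⁻¹`, `tA z (tA w F) = tA (z + w) F`, see
`StGrp`): `al(p) = lam(pA⁻¹) - lam(p)`, `be(p) = lam(p) - lam(pBA⁻¹)`, and
`tB 1 (tA (-1) lam) p = lam(pBA⁻¹)`. -/
def StDual : Prop := Dual

/-- The content of NV. -/
def Nv : Prop := ∀ (D : ℕ) (c : ZMod D → ℂ), Adm D c → c ≠ 0 →
  ∃ (n : ℕ) (G : ℤ → ℤ → ℂ), 5 ≤ n ∧ Sym 0 n G ∧ ph D c G ≠ 0

/-- NV. The functional is not zero. Proof. Level `n = 2r + 2`, `q = 2^r` large. (1) For a symbol `G` of
level `(r+1, r+1)` the potential `G0(p, t) = G(2^(r+1) p, t)` is a symbol of level `(0, n)` (transport as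
in Pool/Agent/Helper96/CV/M_LBof.lean), and `ph D c G0 = ∑_a c(a) G(2^(r+1) a, D)`. For a unit `a` let `b` be
the even integer with `|b| < D` and `b ≡ 2^(r+1) a` modulo `D` (`D` odd); `2^(r+1) a = b + 2 z D`, `z ≡ -b/(2D)`
modulo `q`. With `c(a) = c(b)` (`two`): `ph D c G0 = ∑_b c(b) G(b + 2 z_b D, D)`, the sum over the
even `b`, `|b| < D`, prime to `D` (a bijection with the units). (2) Let `A^z = (1 2z; 0 1)`.
`G (A^z (b, D)) = G (A^z (1,0)) - (G (A^z (1,0)) - G (A^z (0,1))) + (G (A^z (b,D)) - G (A^z (0,1)))`; the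
first term is `G 1 0` and cancels in the sum (`sum`); the second is `F1` at the point `(z, 0)`; the
third by PATH for the potential `G∘A^z` is a sum of `± F1` at the plane points of `A^z g`, `g` in `P1(b)`, and `± F3` at
those of `A^z g`, `g` in `P3(b)` (`F1 = edgeF 1 1 0 0 1 G`, `F3 = edgeF 1 1 1 0 1 G`, EDG). The point of `A^z g`,
`g = (a, 2b; 2c, d)`, has second coordinate `c/d`, not `0` for `g` in `P1` if `q > D` (`0 < 2|c| ≤ D`). So
`ph D c G0 = ∑ (al F1 + be F3)` with `al(x, 0) = -∑_{b : z_b = x} c(b)`, and the number of points with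
`al ≠ 0` or `be ≠ 0` is at most `M0`, independent of `r`. (3) Suppose that `ph D c` vanishes on all
symbols; by EX (every solution of `Rel` comes from a symbol) the functional vanishes on all
solutions, so DUAL gives `lam`. From `al(p) = lam(pA⁻¹) - lam(p)`, `be(p) = lam(p) - lam(pBA⁻¹)`:
`lam(pA) = lam(p)` unless `al(pA) ≠ 0`, and `lam(pB) = lam(p) - be(p) - al(pB)`. So the hypothesis of GRID
holds with a set `S` of at most `M = 3 M0` points; let `q > M`. (4) The `z_b` modulo `q` have cyclic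
distances `> M + 1` if `q > D (M + 3)`: if `z_b - z_b' ≡ t`, `|t| ≤ M + 1`, then `b' - b ≡ 2 D t` modulo `2q`, both sides
are smaller than `q` in absolute value... so `b' - b = 2 D t`, and `|b' - b| < 2D` gives `t = 0`, `b = b'`. Choose
`b0` with `c(b0) ≠ 0`, `x0 = z_b0`. On `x0, x0 + 1, ..., x0 + M` the function `lam x 0` is constant
(`al(x, 0) = 0` for `x0 < x ≤ x0 + M`), these are `M + 1` points, so by GRID the constant is `z`. The
same for `x0 - 1, ..., x0 - 1 - M`. So `al(x0, 0) = lam(x0 - 1, 0) - lam(x0, 0) = 0`, but it is `-c(b0)`. -/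
def StNv : Prop := Path → Grid → Dual → StEdg → StPlA → StEx → Nv

end Pool.Agent.Helper78.TW
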