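import Pool.Agent.Helper31.TW.St1

set_option autoImplicit false

namespace Pool.Agent.Helper78.TW

open Pool.Agent.Helper31.TW Symbol

variable {T N : Type}

private theorem lp_du {R : Set (ContextFreeRule T N)} {β : List (Symbol T N)} {k : ℕ}
    {U : Set (List (Symbol T N))} {w : List T} (h : Lp R β k U w) : DU R U β w := by
  induction h with
  | zero h => exact h
  | succ hR _ _ ih => exact hR _ _ ih

open scoped Classical in
/-- removal of one of the loops without losing the states of `Z` -/
private theorem lp_remove [DecidableEq T] {R : Set (ContextFreeRule T N)}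
    {β : List (Symbol T N)} {k : ℕ} {U : Set (List (Symbol T N))} {w : List T}
    (h : Lp R β k U w) : ∀ Z : Finset (List (Symbol T N)), (Z : Set (List (Symbol T N))) ⊆ U →
      Z.card < k → ∃ (W : Set (List (Symbol T N))) (v y w' : List T)
        (U'' : Set (List (Symbol T N))), W ⊆ U ∧ RU R W β v y β ∧ 1 ≤ v.length + y.length ∧
        DU R U'' β w' ∧ (Z : Set (List (Symbol T N))) ⊆ U'' ∧ U'' ⊆ U ∧
        w.length = w'.length + v.length + y.length ∧
        ∀ a : T, w.count a = w'.count a + v.count a + y.count a := by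
  induction h with
  | zero h =>
    intro Z _ hc
    exact absurd hc (Nat.not_lt_zero _)
  | @succ k W U v y w hR hlen hLp ih =>
    intro Z hZ hc
    by_cases hZU : (Z : Set (List (Symbol T N))) ⊆ U
    · refine ⟨W, v, y, w, U, Set.subset_union_left, hR, hlen, lp_du hLp, hZU,
        Set.subset_union_right, ?_, ?_⟩
      · simp only [List.length_append]
        omega
      · intro a
        simp only [List.count_append]
        omega
    · have hlt : (Z.filter (fun s => s ∈ U)).card < Z.card := by
        refine Finset.card_lt_card ?_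
        rw [Finset.ssubset_iff_subset_ne]
        refine ⟨Finset.filter_subset _ _, ?_⟩
        intro heq
        apply hZU
        intro s hs
        have : s ∈ Z.filter (fun s => s ∈ U) := by
          rw [heq]
          exact hs
        exact (Finset.mem_filter.1 this).2
      obtain ⟨W', v', y', w1, U1, h1, h2, h3, h4, h5, h6, h7, h8⟩ :=
        ih (Z.filter (fun s => s ∈ U)) (by
          intro s hs
          exact (Finset.mem_filter.1 hs).2) (by omega)
      refine ⟨W', v', y', v ++ w1 ++ y, W ∪ U1, h1.trans Set.subset_union_right, h2, h3,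
        hR _ _ h4, ?_, Set.union_subset_union_right W h6, ?_, ?_⟩
      · intro s hs
        rcases hZ hs with h | h
        · exact Or.inl h
        · refine Or.inr (h5 ?_)
          exact Finset.mem_coe.2 (Finset.mem_filter.2 ⟨hs, h⟩)
      · simp only [List.length_append]
        omega
      · intro a
        have := h8 a
        simp only [List.count_append]
        omega

/-- **PKR** (removal of a loop without losing states). -/
theorem hPKR (hPKD : StPKD) (hPKL : StPKL) (hDUB : StDUB) : StPKR := by
  intro T N _ R X hfin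
  obtain ⟨-, -, hD3, hD4, -, hD6⟩ := hDUB T N R
  have hS : (Sts R X).Finite := hD6 X hfin
  obtain ⟨m, hm⟩ := hPKL T N R X hfin (hS.toFinset.card + 1)
  refine ⟨2 ^ m, 2 ^ (m + 1), ?_⟩
  intro U α w hDU hα hlen
  obtain ⟨β1, hβ1, W1, U1, u1, x1, z1, hw, hU, hRU1, hDU1, hl1, hl2⟩ :=
    hPKD T N R X m U α w hDU hα hlen
  obtain ⟨β, W2, U2, u2, x2, z2, hx1, hU1, hRU2, hLp⟩ := hm U1 β1 x1 hDU1 hβ1 hl1
  have hU1S : U1 ⊆ Sts R X := hD3 X U1 β1 x1 hDU1 hβ1
  have hU2U1 : U2 ⊆ U1 := by
    rw [hU1]
    exact Set.subset_union_right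
  have hU1U : U1 ⊆ U := by
    rw [hU]
    exact Set.subset_union_right
  have hU2f : U2.Finite := hS.subset (hU2U1.trans hU1S)
  obtain ⟨W, v, y, w2, U'', h1, h2, h3, h4, h5, h6, h7, h8⟩ :=
    lp_remove hLp hU2f.toFinset (by rw [Set.Finite.coe_toFinset]) (by
      refine Nat.lt_succ_of_le (Finset.card_le_card ?_)
      rw [Set.Finite.toFinset_subset_toFinset]
      exact hU2U1.trans hU1S)
  have hUeq : U'' = U2 := by
    refine Set.Subset.antisymm h6 ?_
    rw [Set.Finite.coe_toFinset] at h5
    exact h5
  rw [hUeq] at h4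
  have hβ : β ∈ U := hU1U (hU2U1 (hD4 U2 β x2 (lp_du hLp)))
  refine ⟨β, hβ, W, h1.trans (hU2U1.trans hU1U), v, y, u1 ++ (u2 ++ w2 ++ z2) ++ z1, h2, h3, ?_,
    ?_, ?_, ?_⟩
  · have hx : x1.length = u2.length + x2.length + z2.length := by
      rw [hx1]
      simp only [List.length_append]
    omega
  · have hb := hRU2 _ _ h4
    rw [← hU1] at hb
    have ha := hRU1 _ _ hb
    rw [← hU] at ha
    exact ha
  · rw [hw, hx1]
    simp only [List.length_append]
    omega
  · intro a
    have := h8 a
    rw [hw, hx1]
    simp only [List.count_append]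
    omega

end Pool.Agent.Helper78.TW
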