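import Pool.Agent.Helper78.TW.StA

/-!
# Project TW, statements, part B: the bound, newforms, characters

Notation of StA. `TT q G = T_3^(q.1) T_5^(q.2) G`, `Hp G = G + G∘*`.
-/

set_option autoImplicit false

open Pool.Agent.Helper14.CV Pool.Agent.Helper28.WK
open UpperHalfPlane CongruenceSubgroup
open scoped MatrixGroups

namespace Pool.Agent.Helper78.TW

/-- The Hecke translates of a potential. -/
def TT {R : Type} [AddCommGroup R] (q : ℕ × ℕ) (G : ℤ → ℤ → R) : ℤ → ℤ → R :=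
  (Tl 3 1)^[q.1] ((Tl 5 1)^[q.2] G)

/-- The even part of a potential. -/
def Hp (G : ℤ → ℤ → ℂ) : ℤ → ℤ → ℂ := fun p q => G p q + G (-p) q

/-! ### The bound -/

/-- The content of STB. -/
def Stb : Prop := ∀ (A : Type) (_ : CommRing A) (_ : IsDomain A) (_ : IsDiscreteValuationRing A)
  (ι : A →+* ℂ), Function.Injective ι → ∀ (D : ℕ) (c : ZMod D → A), Adm D c → c ≠ 0 →
  ∃ (n1 : ℕ) (Gs : ℤ → ℤ → ℤ), 5 ≤ n1 ∧ Sym 0 n1 Gs ∧ phz D c Gs ≠ 0 ∧
    ∀ (n : ℕ) (h : ℤ → ℤ → ℤ), 5 ≤ n → Sym 0 n h → phz D c Gs ∣ phz D c h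

/-- STB. A value of the functional of smallest valuation. Proof. `ι ∘ c` is admissible and not `0`, so
by `Nv` there is a complex symbol `G` of a level `n ≥ 5` with `ph D (ι ∘ c) G ≠ 0`. Take the family `G k` of
`Bas` at level `n`; its complexifications have independent `evL` (odd, so nonzero determinant), so by `DimS`
`evL G = ∑ y k evL (G k)`; `G - ∑ y k G k` is a symbol killed by `ev`, so by `LinC`
`ph G = ∑ y k ι (phz D c (G k))`: some `phz D c (G k)` is not `0`. Among all the nonzero values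
`phz D c h`, `h` an integral symbol of some level `n ≥ 5`, take one of smallest valuation
(`IsDiscreteValuationRing.addVal`, `addVal_le_iff_dvd`; or: write a nonzero element as a unit times
a power of a uniformiser and take the smallest exponent); it divides all the others. -/
def StStb : Prop := Nv → LinC → DimS → Bas → Stb

/-- The content of BNA. -/
def BndA : Prop := ∀ (A : Type) (_ : CommRing A) (_ : IsDomain A) (_ : IsLocalRing A)
  (ι : A →+* ℂ), (2 : A) ∈ IsLocalRing.maximalIdeal A → Function.Injective ι →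
  ∀ (D : ℕ) (c : ZMod D → A), Adm D c → ∀ (n1 : ℕ) (Gs : ℤ → ℤ → ℤ), 5 ≤ n1 → Sym 0 n1 Gs →
  phz D c Gs ≠ 0 → (∀ (n : ℕ) (h : ℤ → ℤ → ℤ), 5 ≤ n → Sym 0 n h → phz D c Gs ∣ phz D c h) →
  ∀ n : ℕ, n1 ≤ n → ∃ (G : Fin (DD n) → ℤ → ℤ → ℤ) (V : ℕ × ℕ → Fin (DD n) → A),
    (∀ k, Sym 0 n (G k)) ∧
    LinearIndependent ℂ (fun k => evL (fun p q => ((G k p q : ℤ) : ℂ))) ∧
    (∀ q k, phz D c (TT q (G k)) = phz D c Gs * V q k) ∧
    DD n ≤ Module.finrank (IsLocalRing.ResidueField A)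
      (Submodule.span (IsLocalRing.ResidueField A)
        (Set.range fun (q : ℕ × ℕ) (k : Fin (DD n)) => IsLocalRing.residue A (V q k))) +
      2 ^ (n1 / 2 + 1) * (2 ^ (n / 2 + 1) + 1)

/-- BNA. The reduction of the functional. Proof. Let `z = phz D c Gs`, `G`, `ij` from `Bas` at level `n`
(so the `evL` of the complexifications are independent: the determinant is odd). `Coef` with
`I = Ideal.span {z}` gives `b l = z * b' l` and `phz D c h = z * ∑ l, b' l * ev 1 h (ij l)` for all integral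
symbols `h` of level `n`. Put `V q k = ∑ l, b' l * ev 1 (G k) (ij l + q)`. By `Cm`
`TT q (G k)` is a symbol with `ev 1 (TT q (G k)) (ij l) = ev 1 (G k) (ij l + q)`: so
`phz D c (TT q (G k)) = z * V q k`. For the last part use `Rk` with `F` the residue field,
`N = DD n`, `w = 2^(n/2+1)`, `w1 = 2^(n1/2+1)`, `E i j k` the residue of `ev 1 (G k) i j`,
`S` the image of `ij` (`ij` is injective: otherwise two columns of the matrix with odd determinant
would be equal), `g (ij l)` the residue of `b' l` (`0` outside `S`). (i) The `E (ij l)` span: the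
determinant of `(E (ij l) k)` is the residue of an odd integer, which is not `0` since `2` is in the
maximal ideal. (ii) `E i j = 0` for `w < 3i + 4j`: `Nil` at level `n`, and even integers are `0` in
the residue field. (iii) `Gs` is a symbol of level `n` too, so `z = z * ∑ b' l ev 1 Gs (ij l)`,
`∑ b' l ev 1 Gs (ij l) = 1`, so there is `l` with `g (ij l) ≠ 0` and `ev 1 Gs (ij l)` odd; by `Nil` at level `n1`
`3 (ij l).1 + 4 (ij l).2 ≤ w1`. The vectors `∑ p ∈ S, g p • E (q.1 + p.1) (q.2 + p.2)` of `Rk` are the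
residues of the `V q` (reindex the sum over `S` by `ij`). -/
def StBna : Prop := Coef → Cm → Bas → Nil → Rk → BndA

/-- The content of BNB. -/
def BndB : Prop := ∀ (A : Type) (_ : CommRing A) (_ : IsDomain A) (_ : IsLocalRing A)
  (ι : A →+* ℂ), (2 : A) ∈ IsLocalRing.maximalIdeal A → Function.Injective ι →
  ∀ (D : ℕ) (c : ZMod D → A), Adm D c → ∀ (n1 : ℕ) (Gs : ℤ → ℤ → ℤ), 5 ≤ n1 → Sym 0 n1 Gs →
  phz D c Gs ≠ 0 → (∀ (n : ℕ) (h : ℤ → ℤ → ℤ), 5 ≤ n → Sym 0 n h → phz D c Gs ∣ phz D c h) →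
  ∀ n : ℕ, n1 ≤ n → ∀ (r : ℕ) (H : Fin r → ℤ → ℤ → ℂ), (∀ b, Sym 0 n (H b)) →
  LinearIndependent ℂ (fun b => evL (H b)) →
  (∀ b q, ph D (fun a => ι (c a)) (TT q (H b)) = 0) →
  r ≤ 2 ^ (n1 / 2 + 1) * (2 ^ (n / 2 + 1) + 1)

/-- BNB. Proof. `G`, `V` from `BndA`, `Gc k` the complexification of `G k`. By `DimS`
`evL (H b) = ∑ k, y b k • evL (Gc k)`, and the vectors `y b` are linearly independent because the
`evL (H b)` are. For `q` the potential `TT q (H b) - ∑ k, y b k • TT q (Gc k)` is a symbol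
(`Cm`; symbols are closed under linear combinations: `XS` in Pool/Agent/Helper14/CV/StB.lean), and its
`ev 1 · i j` is that of `H b - ∑ y b k Gc k` at `(i + q.1, j + q.2)` (`Cm`), so `0`. By `LinC` (for `ι ∘ c`,
which is admissible) and `TT q (Gc k)` = the complexification of `TT q (G k)`:
`0 = ph (TT q (H b)) = ∑ k, y b k ι (phz D c (TT q (G k))) = ι (phz D c Gs) ∑ k, y b k ι (V q k)`. Now `Up`
with this `V`: `r + finrank ≤ DD n`, and the last part of `BndA`. -/
def StBnb : Prop := BndA → Up → DimS → LinC → Cm → BndB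

/-- The content of ALG. -/
def Alg : Prop := ∀ (A : Type) (_ : CommRing A) (_ : IsDomain A) (_ : IsDiscreteValuationRing A)
  (ι : A →+* ℂ), (2 : A) ∈ IsLocalRing.maximalIdeal A → Function.Injective ι →
  ∀ (D : ℕ) (c : ZMod D → A), Adm D c → c ≠ 0 →
  ∃ C : ℕ, ∀ (n r : ℕ) (H : Fin r → ℤ → ℤ → ℂ), (∀ b, Sym 0 n (H b)) →
  LinearIndependent ℂ (fun b => evL (H b)) →
  (∀ b q, ph D (fun a => ι (c a)) (TT q (H b)) = 0) → r ≤ C * 2 ^ (n / 2)

/-- ALG. Proof. `n1`, `Gs` from `Stb`. For `n ≥ n1` `BndB` at level `n`: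
`2^(n1/2+1) (2^(n/2+1) + 1) ≤ 2^(n1/2+1) * 3 * 2^(n/2)`. For `n < n1` the `H b` are symbols of level `n1`
(`2^n1 ∣ c` implies `2^n ∣ c`), and `BndB` at level `n1` gives a bound independent of `n`. -/
def StAlg : Prop := Stb → BndB → Alg

/-! ### Newforms -/

/-- The content of IND. -/
def Ind : Prop := ∀ (n r : ℕ) (f : Fin r → CuspForm (G0 (2 ^ n)) 2), Function.Injective f →
  (∀ b, IsNewform n (f b)) → LinearIndependent ℂ f

/-- IND. Different newforms are linearly independent. Proof. (1) Two newforms with the same `fc f p` for all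
primes `p` are equal: `fc f m` by strong induction on `m` (`fc f 0 = 0`, `fc f 1 = 1`,
`m = p m'` with a prime `p`: `HeckeEig`, `hecke_two`), and a cusp form is determined by its
coefficients (`StA1`: `fz f z = ∑ fc f m q^m`; `f z = fz f z` for `z` in the upper half plane). (2) Let
`∑ x_b f_b = 0`, so `∑ x_b fc (f_b) m = 0` for all `m` (`fc` is linear: `qExpansion` of sums, see the proofs in
Pool/Agent/Helper7/CV/M_A1.lean, or use `StA1` and uniqueness of the coefficients). Let `T_p` be the linear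
operators `s ↦ (m ↦ s(p m) + [p ∣ m] p s(m/p))` (`p` odd), `s ↦ (m ↦ s(2 m))` (`p = 2`) on sequences;
`fc (f_b)` is an eigenvector with eigenvalue `fc (f_b) p`. For a word `w` in `FreeMonoid Nat.Primes` let
`X_b w` be the product of the eigenvalues, a monoid homomorphism to `ℂ` (`FreeMonoid.lift`).
Applying the operators of `w` (induction on `w`): `∑ x_b X_b(w) fc (f_b) m = 0` for all `m`; `m = 1`:
`∑ x_b X_b(w) = 0` for all `w`. The `X_b` are pairwise different by (1), so linearly independent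
(`linearIndependent_monoidHom`, composed with an injective map), so all `x_b = 0`. -/
def StInd : Prop := StA1 → Ind

/-- The content of CNT. -/
def CntC : Prop := ∀ (n r : ℕ) (f : Fin r → CuspForm (G0 (2 ^ n)) 2), 5 ≤ n →
  Function.Injective f → (∀ b, IsNewform n (f b)) → (∀ b, RootOne (f b)) →
  ∃ G : Fin r → ℤ → ℤ → ℂ, (∀ b, IsPot (f b) (G b) ∧ Sym 0 n (G b) ∧
    EqC (act 0 (-1) (2 ^ n) 0 (G b)) (-(G b)) ∧ Sym 0 n (Hp (G b))) ∧
    LinearIndependent ℂ (fun b => evL (Hp (G b))) ∧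
    ∀ (b : Fin r) (t : ℕ × ℕ), ∃ κ : ℂ, ∀ p q : ℤ, (p ≠ 0 ∨ q ≠ 0) →
      TT t (Hp (G b)) p q = κ * Hp (G b) p q

/-- CNT. Proof. All lemmas are in Pool/Agent/Helper19/CV/M_Final.lean (copy it; they are private there):
`G b` from A4; P1, P2, P4 with A8, P5 with N4 give the properties of `G b`; `Hp (G b)` is a
`NewSym n` (`sym_Gp`, `half_Gp`, `sigma_Gp`, `fricke_Gp`) and an eigenvector of `Tl 3 1` and `Tl 5 1` away
from the origin (P3, `Tl_Gp`, `Tl_iter`): last part. Independence: let `∑ x_b evL (Hp (G b)) = 0`. Then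
`K = ∑ x_b Hp (G b)` is a `NewSym n` (closed under linear combinations) with `ev 1 K i j = 0`, so
`EqC K 0` by `StCore`. `∑ x_b G b` is the potential of `∑ x_b f b` (`fc`, `Fp` are linear: the series of
`StA1` converge; `IsPot` by limits), and `K p q = g p q + g (-p) q` for `g = ∑ x_b G b`: so by `StA6`
`∑ x_b f b = 0`, and `x = 0` by `Ind`. -/
def StCntC : Prop := StA1 → StA4 → StA6 → StA8 → StN4 → StP1 → StP2 → StP3 → StP4 → StP5 →
  StCore → Ind → CntC

/-! ### Characters -/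

/-- The content of CHR. -/
def Chr : Prop := ∀ (D : ℕ) (χ : DirichletCharacter ℂ D), Odd D → 1 < D → χ ≠ 1 →
  χ (-1) = 1 → χ 2 = 1 →
  Adm D (fun a => χ a + χ⁻¹ a) ∧
  ∃ (A : Type) (_ : CommRing A) (_ : IsDomain A) (_ : IsDiscreteValuationRing A) (ι : A →+* ℂ)
    (c : ZMod D → A), (2 : A) ∈ IsLocalRing.maximalIdeal A ∧ Function.Injective ι ∧ Adm D c ∧
    c ≠ 0 ∧ ∀ a, ι (c a) = χ a + χ⁻¹ a

/-- CHR. Proof. `χ⁻¹ a = (χ a)⁻¹ = χ (a⁻¹)` for units `a`; `χ (2 a) = χ a`, `χ (-a) = χ a`, the sums of `χ` and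
`χ⁻¹` over `ZMod D` are `0` (`MulChar.sum_eq_zero_of_ne_one`; turn the sum over `range D` into the
sum over `ZMod D`, `NeZero D`). `VAL` with `m = D.totient`: `χ(a)^m = 1` for units
(`ZMod.pow_totient`), so choose `c a = a1 + a2` with `ι a1 = χ a`, `ι a2 = χ⁻¹ a` for units and `c a = 0`
otherwise. `Adm D c` follows from that of `ι ∘ c` by injectivity. `c 1 ≠ 0` since `ι (c 1) = 2`. -/
def StChr : Prop := StVal → Chr

/-- The content of ZER. -/
def Zer : Prop := ∀ (D n : ℕ) (χ : DirichletCharacter ℂ D), Odd D → 1 < D → χ ≠ 1 →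
  χ (-1) = 1 → χ 2 = 1 → ∀ G : ℤ → ℤ → ℂ, Sym 0 n G →
  EqC (act 0 (-1) (2 ^ n) 0 G) (-G) → ph D (fun a => χ⁻¹ a) G = 0 →
  ph D (fun a => χ a + χ⁻¹ a) (Hp G) = 0

/-- ZER. Proof. PHW with `c = χ⁻¹`, `c' = χ` (if `2^n a b = -1` then `χ b = χ⁻¹ (-(2^n a)) = χ⁻¹ a`):
`ph χ⁻¹ (W G) = -ph χ G`, and `W G = -G + k` away from the origin, so
`ph χ⁻¹ (W G) = -ph χ⁻¹ G + k ∑ χ⁻¹ = 0`. So `ph χ G = 0` and `ph (χ + χ⁻¹) G = 0`;
`Hp G = G + act (-1) 0 0 1 G` (pointwise) and the last part of `PhE` for `χ + χ⁻¹` (admissible by the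
first part of `Chr`). -/
def StZer : Prop := (∀ (R : Type) (_ : CommRing R) (D n : ℕ) (c c' : ZMod D → R), Odd D → 1 < D →
  (∀ a : ZMod D, ¬ IsUnit a → c a = 0 ∧ c' a = 0) → ∑ a ∈ Finset.range D, c (a : ZMod D) = 0 →
  (∀ a b : ZMod D, 2 ^ n * a * b = -1 → c' b = c a) → ∀ G : ℤ → ℤ → R, Sym 0 n G →
  ph D c (act 0 (-1) (2 ^ n) 0 G) = -ph D c' G) → PhE → Chr → Zer

end Pool.Agent.Helper78.TW
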